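import Pool.Agent.H603R2.Fpt
import Pool.Agent.NPC.Dec

/-!
Definitions for the proof that `P₄`-Free Contraction is fixed-parameter tractable: the algorithm,
and the semantic notions used to state its correctness.
-/

namespace Pool.Agent.J4H62.PF

open Pool.Agent.NPC

/-! ### The path on four vertices and contractions -/

/-- `a - b - c - d` is an induced path for the relation `R` -/
def pat {V : Type*} (R : V → V → Prop) (a b c d : V) : Prop :=
  R a b ∧ R b c ∧ R c d ∧ ¬ R a c ∧ ¬ R b d ∧ ¬ R a d

/-- The representative map after contracting the pairs of a list, one after the other. -/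
def coll {V : Type*} [DecidableEq V] (F : List (V × V)) : V → V :=
  F.foldl (fun π e a => if π a = π e.2 then π e.1 else π a) id

/-- adjacency of the classes of `a` and `b` under `π` -/
def qadj {V : Type*} (R : V → V → Prop) (π : V → V) (a b : V) : Prop :=
  π a ≠ π b ∧ ∃ a' b', π a' = π a ∧ π b' = π b ∧ R a' b'

/-! ### The algorithm -/

/-- all lists of length `m` over `A` -/
def allL {α : Type} (A : List α) : ℕ → List (List α)
  | 0 => [[]]
  | m + 1 => (allL A m).flatMap fun l => A.map fun a => a :: l

/-- A query about a tuple: `(true, i, j)` asks whether the entries `i` and `j` are adjacent,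
`(false, i, j)` asks whether they are equal. -/
abbrev Qu : Type := Bool × ℕ × ℕ

/-- the queries about tuples of length `N` -/
def Qs (N : ℕ) : List Qu :=
  [true, false].flatMap fun b => (List.range N).flatMap fun i => (List.range N).map fun j => (b, i, j)

/-- the answer to a query about the tuple `z` -/
def ev (adj : ℕ → ℕ → Bool) (z : ℕ → ℕ) (q : Qu) : Bool :=
  if q.1 then adj (z q.2.1) (z q.2.2) else decide (z q.2.1 = z q.2.2)

/-- the atomic type of the tuple `z` -/
def atp (adj : ℕ → ℕ → Bool) (Q : List Qu) (z : ℕ → ℕ) : List Bool := Q.map (ev adj z)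

/-- adjacency in the graph on `0, …, n - 1` given by the rows of its adjacency matrix; all other
numbers are isolated vertices -/
def adjM (n : ℕ) (M : List Bool) (u v : ℕ) : Bool :=
  (decide (u < n) && decide (v < n)) && M.getD (u * n + v) false

/-- induced path on four vertices, as a test -/
def isP4 (adj : ℕ → ℕ → Bool) (a b c d : ℕ) : Bool :=
  (adj a b && (adj b c && adj c d)) && (!adj a c && (!adj b d && !adj a d))

/-- the quadruples of vertices -/
def quads (n : ℕ) : List (ℕ × ℕ × ℕ × ℕ) :=
  (List.range n).flatMap fun a => (List.range n).flatMap fun b => (List.range n).flatMap fun c =>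
    (List.range n).map fun d => (a, b, c, d)

/-- one step of the greedy packing -/
def packStep (adj : ℕ → ℕ → Bool) (S : List ℕ) (t : ℕ × ℕ × ℕ × ℕ) : List ℕ :=
  if isP4 adj t.1 t.2.1 t.2.2.1 t.2.2.2 = true ∧
      (t.1 ∉ S ∧ t.2.1 ∉ S ∧ t.2.2.1 ∉ S ∧ t.2.2.2 ∉ S) then
    t.1 :: t.2.1 :: t.2.2.1 :: t.2.2.2 :: S else S

/-- the vertices of a maximal packing of vertex-disjoint induced paths on four vertices -/
def pack (adj : ℕ → ℕ → Bool) (n : ℕ) : List ℕ := (quads n).foldl (packStep adj) []

/-- the combination of two answers: `D` marks the entries taken from the second tuple, the entries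
below `s` are the constants, and `b` is the adjacency between the two parts -/
def combE (b : Bool) (s : ℕ) (D : List Bool) (q : Qu) (e₁ e₂ : Bool) : Bool :=
  bif !(D.getD q.2.1 false) && !(D.getD q.2.2 false) then e₁ else
    bif (D.getD q.2.1 false || decide (q.2.1 < s)) && (D.getD q.2.2 false || decide (q.2.2 < s))
      then e₂ else q.1 && b

/-- the combination of two atomic types -/
def comb (b : Bool) (s : ℕ) (D : List Bool) (Q : List Qu) (α₁ α₂ : List Bool) : List Bool :=
  (Q.zip (α₁.zip α₂)).map fun t => combE b s D t.1 t.2.1 t.2.2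

/-- the mask for the whole tuple -/
def mask (s : ℕ) (Dx Dy : List Bool) : List Bool := List.replicate s false ++ (Dx ++ Dy)

/-- a set of atomic types -/
abbrev AS : Type := List (List Bool)

/-- The data that depend only on the parameters: `s` (as a list of that length), the queries, the
universe `U` of atomic types, the list `PU` of the subsets of `U`, the masks for the first and the
second block. -/
abbrev Env : Type := List Unit × List Qu × AS × List AS × List (List Bool) × List (List Bool)

/-- the set of the combinations of two sets of atomic types -/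
def innerC (E : Env) (b : Bool) (Dx : List Bool) (A₁ A₂ : AS) : AS :=
  E.2.2.1.filter fun α => A₁.any fun α₁ => A₂.any fun α₂ => E.2.2.2.2.2.any fun Dy =>
    decide (comb b E.1.length (mask E.1.length Dx Dy) E.2.1 α₁ α₂ = α)

/-- the type of the union of two parts -/
def mergeT (E : Env) (b : Bool) (t₁ t₂ : List AS) : List AS :=
  E.2.2.2.1.filter fun A => t₁.any fun A₁ => t₂.any fun A₂ => E.2.2.2.2.1.any fun Dx =>
    decide (innerC E b Dx A₁ A₂ = A)

/-- the tuple of constants `S`, continued by `v` -/
def ztup (S : List ℕ) (v : ℕ) (i : ℕ) : ℕ := S.getD i v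

/-- the type of a single vertex -/
def base (E : Env) (adj : ℕ → ℕ → Bool) (S : List ℕ) (v : ℕ) : List AS :=
  [E.2.2.1.filter fun α => decide (atp adj E.2.1 (ztup S v) = α)]

/-- a cell: a representative vertex and the type of the set of vertices it stands for -/
abbrev Cell : Type := ℕ × List AS

/-- the representatives of the two cells are twins -/
def twinB (adj : ℕ → ℕ → Bool) (cs : List Cell) (c₁ c₂ : Cell) : Bool :=
  !(decide (c₁.1 = c₂.1)) && cs.all fun c => decide (c.1 = c₁.1) ||
    (decide (c.1 = c₂.1) || decide (adj c.1 c₁.1 = adj c.1 c₂.1))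

/-- the pairs of cells with twin representatives -/
def twinPairs (adj : ℕ → ℕ → Bool) (cs : List Cell) : List (Cell × Cell) :=
  cs.flatMap fun c₁ => (cs.filter fun c₂ => twinB adj cs c₁ c₂).map fun c₂ => (c₁, c₂)

/-- merging two cells with twin representatives, if there are any -/
def stepC (E : Env) (adj : ℕ → ℕ → Bool) (cs : List Cell) : List Cell :=
  match (twinPairs adj cs).head? with
  | none => cs
  | some c => (c.1.1, mergeT E (adj c.1.1 c.2.1) c.1.2 c.2.2) ::
      cs.filter fun c' => !(decide (c'.1 = c.1.1)) && !(decide (c'.1 = c.2.1))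

/-- the cells at the start; the vertex `n` is isolated -/
def cells₀ (E : Env) (adj : ℕ → ℕ → Bool) (S : List ℕ) (n : ℕ) : List Cell :=
  ((List.range (n + 1)).filter fun v => !(decide (v ∈ S))).map fun v => (v, base E adj S v)

/-- the cells at the end -/
def cellsE (E : Env) (adj : ℕ → ℕ → Bool) (S : List ℕ) (n : ℕ) : List Cell :=
  (stepC E adj)^[n + 1] (cells₀ E adj S n)

/-- the answer to the query `q` recorded in the atomic type `α` -/
def look (Q : List Qu) (α : List Bool) (q : Qu) : Bool :=
  (Q.zip α).any fun t => decide (t.1 = q) && t.2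

/-- representatives of the indices after contracting the pairs of `F` -/
def labs (Q : List Qu) (α : List Bool) (R : List ℕ) (F : List (ℕ × ℕ)) : List ℕ :=
  F.foldl (fun lab e => lab.map fun l => bif look Q α (false, l, lab.getD e.2 0) then
    lab.getD e.1 0 else l) R

/-- adjacency of the classes with the representatives `la` and `lb` -/
def qadjI (Q : List Qu) (α : List Bool) (lab : List ℕ) (R : List ℕ) (la lb : ℕ) : Bool :=
  !(look Q α (false, la, lb)) && R.any fun a' => R.any fun b' =>
    look Q α (false, lab.getD a' 0, la) && (look Q α (false, lab.getD b' 0, lb) &&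
      look Q α (true, a', b'))

/-- the pairs of `F` are edges (or equal), and contracting them leaves no induced path on four
vertices; `R` is the list of the indices -/
def psi (Q : List Qu) (R : List ℕ) (F : List (ℕ × ℕ)) (α : List Bool) : Bool :=
  (F.all fun e => look Q α (true, e.1, e.2) || look Q α (false, e.1, e.2)) &&
    (labs Q α R F).all fun a => (labs Q α R F).all fun b => (labs Q α R F).all fun c =>
      (labs Q α R F).all fun d =>
        !((qadjI Q α (labs Q α R F) R a b && (qadjI Q α (labs Q α R F) R b c &&
          qadjI Q α (labs Q α R F) R c d)) && (!(qadjI Q α (labs Q α R F) R a c) &&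
          (!(qadjI Q α (labs Q α R F) R b d) && !(qadjI Q α (labs Q α R F) R a d))))

/-- the final test -/
def fin (E : Env) (adj : ℕ → ℕ → Bool) (S : List ℕ) (n : ℕ) (R : List ℕ)
    (FS : List (List (ℕ × ℕ))) : Bool :=
  (cellsE E adj S n).any fun c => c.2.any fun A => FS.any fun F => A.all fun α => psi E.2.1 R F α

/-! ### Parameters and the environment -/

/-- the length of the tuples -/
def Nn (s k : ℕ) : ℕ := s + 2 * k + 4

/-- the index pairs that may be contracted -/
def ipairs (m : ℕ) : List (ℕ × ℕ) :=
  (List.range m).flatMap fun i => (List.range m).map fun j => (i, j)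

/-- the sublist of `U` selected by a list of bits -/
def sel (U : AS) (m : List Bool) : AS := ((U.zip m).filter fun t => t.2).map fun t => t.1

/-- the atomic types (and some more lists) -/
def Un (s k : ℕ) : AS := allL [true, false] (Qs (Nn s k)).length

/-- the sets of atomic types -/
def PUn (s k : ℕ) : List AS := (allL [true, false] (Un s k).length).map (sel (Un s k))

/-- the environment -/
def env (s k : ℕ) : Env :=
  (List.replicate s (), Qs (Nn s k), Un s k, PUn s k, allL [true, false] (2 * k),
    allL [true, false] 4)

/-- the algorithm on a graph with `n` vertices and adjacency `adj` -/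
def alg (adj : ℕ → ℕ → Bool) (n k : ℕ) : Bool :=
  decide ((pack adj n).length ≤ 8 * k) &&
    fin (env (pack adj n).length k) adj (pack adj n) n (List.range (Nn (pack adj n).length k))
      (allL (ipairs ((pack adj n).length + 2 * k)) k)

/-! ### Semantics of the dynamic program -/

/-- `z` is a tuple whose first entries are the constants `S` and whose other entries are in `P` -/
def Tup (S : List ℕ) (P : ℕ → Prop) (z : ℕ → ℕ) : Prop :=
  (∀ i < S.length, z i = S.getD i 0) ∧ ∀ i, S.length ≤ i → P (z i)

/-- `α` is the atomic type of a tuple over `P` that agrees with `z` below `m` -/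
def Ext (adj : ℕ → ℕ → Bool) (Q : List Qu) (S : List ℕ) (P : ℕ → Prop) (m : ℕ) (z : ℕ → ℕ)
    (α : List Bool) : Prop :=
  ∃ z', Tup S P z' ∧ (∀ i < m, z' i = z i) ∧ atp adj Q z' = α

/-- `A` lists exactly the atomic types (in `U`) of the tuples over `P` that extend `z` -/
def IsIn (adj : ℕ → ℕ → Bool) (E : Env) (S : List ℕ) (P : ℕ → Prop) (m : ℕ) (z : ℕ → ℕ)
    (A : AS) : Prop :=
  ∃ p : List Bool → Bool, A = E.2.2.1.filter p ∧ ∀ α, p α = true ↔ Ext adj E.2.1 S P m z α

/-- `t` is the type of the set `P` -/
def IsTy (adj : ℕ → ℕ → Bool) (E : Env) (S : List ℕ) (P : ℕ → Prop) (m : ℕ) (t : List AS) : Prop :=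
  ∀ A, A ∈ t ↔ ∃ z, Tup S P z ∧ IsIn adj E S P m z A

/-- what the final test decides -/
def Sem (adj : ℕ → ℕ → Bool) (Q : List Qu) (R : List ℕ) (S : List ℕ) (P : ℕ → Prop) (m : ℕ)
    (FS : List (List (ℕ × ℕ))) : Prop :=
  ∃ z, Tup S P z ∧ ∃ F ∈ FS, ∀ z', Tup S P z' → (∀ i < m, z' i = z i) →
    psi Q R F (atp adj Q z') = true

end Pool.Agent.J4H62.PF
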