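import Pool.Agent.J4H62.PF.Jobs

/-!
Fixed-parameter tractable computations from programs: fpt-bounded iteration, the tables of all
lists over a small alphabet.
-/

namespace Pool.Agent.J4H62.PF

open Pool.Agent.NPC
open Pool.Agent.H603R2 (FptComputable)
open Turing

/-- fpt-time computability by a program, between encoded types -/
def PCF {α β : Type} (κ : α → ℕ) (ea : α → List Bool) (eb : β → List Bool) (f : α → β) : Prop :=
  ∃ (c : Cmd ℕ) (g : ℕ → ℕ) (e : ℕ), Computable g ∧
    ∀ a, Runs c (inp (ea a)) (inp (eb (f a))) (g (κ a) * ((ea a).length + 1) ^ e)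

theorem comp_add {f g : ℕ → ℕ} (hf : Computable f) (hg : Computable g) :
    Computable fun k => f k + g k := (Primrec.nat_add.to_comp).comp hf hg

theorem comp_mul {f g : ℕ → ℕ} (hf : Computable f) (hg : Computable g) :
    Computable fun k => f k * g k := (Primrec.nat_mul.to_comp).comp hf hg

theorem comp_pow {f g : ℕ → ℕ} (hf : Computable f) (hg : Computable g) :
    Computable fun k => f k ^ g k := by
  have h2 : Computable₂ fun (k : ℕ) (p : ℕ × ℕ) => p.2 * f k := by
    have a : Computable fun p : ℕ × (ℕ × ℕ) => p.2.2 := Computable.snd.comp Computable.snd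
    have b : Computable fun p : ℕ × (ℕ × ℕ) => f p.1 := hf.comp Computable.fst
    exact (Primrec.nat_mul.to_comp).comp a b
  refine (Computable.nat_rec hg (Computable.const 1) h2).of_eq fun k => ?_
  induction g k with
  | zero => simp
  | succ n ih =>
    simp only at ih ⊢
    rw [ih, pow_succ]

/-- a polynomial is bounded by a constant times a power -/
theorem poly_bound (p : Polynomial ℕ) : ∃ C e : ℕ, ∀ n, p.eval n ≤ C * (n + 1) ^ e := by
  refine ⟨p.eval 1, p.natDegree, fun n => ?_⟩
  rw [Polynomial.eval_eq_sum_range, Polynomial.eval_eq_sum_range, Finset.sum_mul]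
  refine Finset.sum_le_sum fun i hi => ?_
  rw [one_pow, mul_one]
  refine Nat.mul_le_mul_left _ ?_
  have h1 : n ^ i ≤ (n + 1) ^ i := Nat.pow_le_pow_left (by omega) i
  refine h1.trans (Nat.pow_le_pow_right (by omega) ?_)
  have := Finset.mem_range.1 hi
  omega

theorem PCF.toFpt {α β : Type} {κ : α → ℕ} {ea : α → List Bool} {eb : β → List Bool}
    {f : α → β} (h : PCF κ ea eb f) : FptComputable ea κ (fun a => eb (f a)) := by
  obtain ⟨c, g, e, hg, h⟩ := h
  refine ⟨{ tm := (c.map (Fin.ofNat (c.bd + 1))).toTM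
            inputAlphabet := Equiv.refl Bool
            outputAlphabet := Equiv.refl Bool }, fun k => g k + 1, e,
    comp_add hg (Computable.const 1), fun a => ?_⟩
  obtain ⟨t, ht, hr⟩ := h a
  have h1 := hr.restrict (n := c.bd) (by omega)
  have h2 : Nonempty (TM2OutputsInTime (c.map (Fin.ofNat (c.bd + 1))).toTM (ea a)
      (some (eb (f a))) (t + 1)) := by
    refine toTM_outputs ?_
    convert! h1 using 1
    · funext i
      by_cases hi : i = 0
      · subst hi; simp [inp]
      · have : (i : ℕ) ≠ 0 := fun h => hi (Fin.ext h)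
        simp [inp, hi, this]
    · funext i
      by_cases hi : i = 0
      · subst hi; simp [inp]
      · have : (i : ℕ) ≠ 0 := fun h => hi (Fin.ext h)
        simp [inp, hi, this]
  obtain ⟨h3⟩ := h2
  refine ⟨outputs_conv (List.map_id (ea a)).symm (List.map_id (eb (f a))).symm ?_ h3⟩
  have h4 : 1 ≤ ((ea a).length + 1) ^ e := Nat.one_le_pow _ _ (by omega)
  calc t + 1 ≤ g (κ a) * ((ea a).length + 1) ^ e + ((ea a).length + 1) ^ e := by omega
    _ = (g (κ a) + 1) * ((ea a).length + 1) ^ e := by ring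

theorem PCF.of_pc {α β : Type} {κ : α → ℕ} {ea : α → List Bool} {eb : β → List Bool}
    {f : α → β} (h : PC ea eb f) : PCF κ ea eb f := by
  obtain ⟨c, p, h⟩ := h
  obtain ⟨C, e, hC⟩ := poly_bound p
  exact ⟨c, fun _ => C, e, Computable.const _, fun a => (h a).mono (hC _)⟩

/-- fpt-bounded iteration -/
theorem PCF.iterate {α β : Type} {κ : α → ℕ} {ea : α → List Bool} {tb : β → T} {n : α → T}
    {x : α → β} {f : β → β}
    (hn : PC ea T.enc n) (hx : PC ea (fun b => (tb b).enc) x)
    (hf : PC (fun b => (tb b).enc) (fun b => (tb b).enc) f)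
    (B : ℕ → ℕ) (hB : Computable B) (e : ℕ)
    (hq : ∀ a, ∀ k ≤ (n a).size, (tb (f^[k] (x a))).size ≤ B (κ a) * ((ea a).length + 1) ^ e) :
    PCF κ ea (fun b => (tb b).enc) (fun a => f^[(n a).size] (x a)) := by
  have hx' : PC ea T.enc (fun a => tb (x a)) := hx
  obtain ⟨u', hu'⟩ := hn.length_le
  obtain ⟨d, r, hd⟩ := hn.node hx'
  obtain ⟨c, p, hf⟩ := hf
  obtain ⟨C1, e1, h1⟩ := poly_bound (r + (Polynomial.C 5 * u' + Polynomial.C 3))
  obtain ⟨C2, e2, h2⟩ := poly_bound p
  obtain ⟨C3, e3, h3⟩ := poly_bound u'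
  refine ⟨Cmd.seq d (Cmd.seq split (Cmd.loop 1 (Cmd.seq (Cmd.pop 1) (NPC.ev c)))),
    fun k => C1 + ((C2 * (B k + 1) ^ e2 + 2) * C3 + 1), e1 + (e * e2 + e3), ?_, fun a => ?_⟩
  · exact comp_add (Computable.const _) (comp_add (comp_mul (comp_add (comp_mul
      (Computable.const _) (comp_pow (comp_add hB (Computable.const _)) (Computable.const _)))
      (Computable.const _)) (Computable.const _)) (Computable.const _))
  · have g1 := hd a
    rw [inp_eq_st, inp_eq_st] at g1
    rw [inp_eq_st, inp_eq_st]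
    have g2 := split_runs (n a) (tb (x a))
    have g3 := loop_runs hf (B (κ a) * ((ea a).length + 1) ^ e) (n a).enc.reverse (x a) (by
      intro k hk
      exact hq a k (by simpa [T.size] using hk))
    refine (g1.seq (g2.seq g3)).conv rfl ?_ ?_
    · simp [T.size]
    · set L := (ea a).length + 1 with hL
      have hL1 : 1 ≤ L := by omega
      have b1 := h1 (ea a).length
      have b2 := h2 (B (κ a) * L ^ e)
      have b3 := h3 (ea a).length
      have b4 := hu' a
      rw [← hL] at b1 b3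
      simp only [Polynomial.eval_add, Polynomial.eval_mul, Polynomial.eval_C] at b1
      rw [List.length_reverse]
      have e2' : (n a).enc.length ≤ C3 * L ^ e3 := b4.trans b3
      have c1 : B (κ a) * L ^ e + 1 ≤ (B (κ a) + 1) * L ^ e := by
        have := Nat.one_le_pow e L hL1
        nlinarith
      have c2 : p.eval (B (κ a) * L ^ e) ≤ C2 * (B (κ a) + 1) ^ e2 * L ^ (e * e2) := by
        refine b2.trans ?_
        calc C2 * (B (κ a) * L ^ e + 1) ^ e2 ≤ C2 * ((B (κ a) + 1) * L ^ e) ^ e2 :=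
              Nat.mul_le_mul_left _ (Nat.pow_le_pow_left c1 e2)
          _ = C2 * (B (κ a) + 1) ^ e2 * L ^ (e * e2) := by rw [mul_pow, ← pow_mul]; ring
      have c3 : p.eval (B (κ a) * L ^ e) + 2 ≤ (C2 * (B (κ a) + 1) ^ e2 + 2) * L ^ (e * e2) := by
        have := Nat.one_le_pow (e * e2) L hL1
        nlinarith
      have c4 : (p.eval (B (κ a) * L ^ e) + 2) * (n a).enc.length + 1 ≤
          ((C2 * (B (κ a) + 1) ^ e2 + 2) * C3 + 1) * L ^ (e * e2 + e3) := by
        have d1 := Nat.mul_le_mul c3 e2'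
        have d2 := Nat.one_le_pow (e * e2 + e3) L hL1
        calc (p.eval (B (κ a) * L ^ e) + 2) * (n a).enc.length + 1 ≤
            (C2 * (B (κ a) + 1) ^ e2 + 2) * L ^ (e * e2) * (C3 * L ^ e3) + L ^ (e * e2 + e3) :=
              Nat.add_le_add d1 d2
          _ = _ := by rw [pow_add]; ring
      have f1 : L ^ e1 ≤ L ^ (e1 + (e * e2 + e3)) := Nat.pow_le_pow_right hL1 (by omega)
      have f2 : L ^ (e * e2 + e3) ≤ L ^ (e1 + (e * e2 + e3)) :=
        Nat.pow_le_pow_right hL1 (by omega)
      have f3 : r.eval (ea a).length + (5 * (n a).size + 3) ≤ C1 * L ^ (e1 + (e * e2 + e3)) := by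
        have : (n a).size ≤ u'.eval (ea a).length := b4
        calc r.eval (ea a).length + (5 * (n a).size + 3) ≤
            r.eval (ea a).length + (5 * u'.eval (ea a).length + 3) := by omega
          _ ≤ C1 * L ^ e1 := b1
          _ ≤ _ := Nat.mul_le_mul_left _ f1
      have f4 := c4.trans (Nat.mul_le_mul_left _ f2)
      have key : (C1 + ((C2 * (B (κ a) + 1) ^ e2 + 2) * C3 + 1)) * L ^ (e1 + (e * e2 + e3)) =
        C1 * L ^ (e1 + (e * e2 + e3)) +
          ((C2 * (B (κ a) + 1) ^ e2 + 2) * C3 + 1) * L ^ (e1 + (e * e2 + e3)) := by ring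
      change _ ≤ (C1 + ((C2 * (B (κ a) + 1) ^ e2 + 2) * C3 + 1)) * L ^ (e1 + (e * e2 + e3))
      rw [key]
      refine le_trans ?_ (Nat.add_le_add f3 f4)
      have : (n a).enc.length = (n a).size := rfl
      omega

/-! ### The table of all lists -/

theorem length_allL {γ : Type} (A : List γ) : ∀ m, (allL A m).length = A.length ^ m
  | 0 => by simp [allL]
  | m + 1 => by
    rw [allL, List.length_flatMap]
    simp [length_allL A m, pow_succ, List.map_const', mul_comm]

theorem mem_allL' {γ : Type} (A : List γ) : ∀ m (l : List γ), l ∈ allL A m →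
    l.length = m ∧ ∀ a ∈ l, a ∈ A
  | 0, l, h => by
    simp [allL] at h
    subst h
    simp
  | m + 1, l, h => by
    rw [allL, List.mem_flatMap] at h
    obtain ⟨l', hl', h⟩ := h
    rw [List.mem_map] at h
    obtain ⟨a, ha, rfl⟩ := h
    obtain ⟨h1, h2⟩ := mem_allL' A m l' hl'
    refine ⟨by simp [h1], ?_⟩
    intro b hb
    rcases List.mem_cons.1 hb with hb | hb
    · exact hb ▸ ha
    · exact h2 b hb

theorem sz_allL_le {γ : Type} [TEnc γ] (A : List γ) (b : ℕ) (hA : sz A ≤ b) (m : ℕ) (hm : m ≤ b) :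
    sz (allL A m) ≤ (b + 1) ^ b * (b * (b + 1) + 1 + 1) + 1 := by
  have h1 : ∀ l ∈ allL A m, sz l ≤ b * (b + 1) + 1 := by
    intro l hl
    obtain ⟨h1, h2⟩ := mem_allL' A m l hl
    refine (sz_le_length_mul l b fun a ha => ?_).trans ?_
    · have := sz_le_of_mem (h2 a ha)
      omega
    · rw [h1]
      exact Nat.add_le_add_right (Nat.mul_le_mul_right _ hm) 1
  refine (sz_le_length_mul _ _ h1).trans ?_
  rw [length_allL]
  refine Nat.add_le_add_right (Nat.mul_le_mul_right _ ?_) 1
  have h2 := length_lt_sz A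
  calc A.length ^ m ≤ (b + 1) ^ m := Nat.pow_le_pow_left (by omega) m
    _ ≤ (b + 1) ^ b := Nat.pow_le_pow_right (by omega) hm

theorem allL_iterate {γ : Type} (A : List γ) : ∀ (l : List Unit),
    l.foldl (fun L _ => L.flatMap fun l => A.map fun a => a :: l) [[]] = allL A l.length := by
  intro l
  have key : ∀ (l : List Unit) (m : ℕ), l.foldl (fun L _ => L.flatMap fun l => A.map fun a => a :: l)
      (allL A m) = allL A (m + l.length) := by
    intro l
    induction l with
    | nil => intro m; simp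
    | cons u l ih =>
      intro m
      rw [List.foldl_cons]
      have : ((allL A m).flatMap fun l => A.map fun a => a :: l) = allL A (m + 1) := rfl
      rw [this, ih, List.length_cons]
      congr 1
      omega
  have := key l 0
  rw [allL, Nat.zero_add] at this
  exact this

/-- The table `allL (A x) m` can be added to the data in fpt-time. -/
theorem fpt_allL {I δ γ : Type} [TEnc δ] [TEnc γ] (κ : I → ℕ) (d : I → δ) (A : δ → List γ)
    (m : δ → List Unit) (hA : Poly A) (hm : Poly m) (B : ℕ → ℕ) (hB : Computable B)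
    (hbA : ∀ x, sz (A (d x)) ≤ B (κ x)) (hbm : ∀ x, (m (d x)).length ≤ B (κ x)) :
    PCF κ (fun x => bits (d x)) bits (fun x => (d x, allL (A (d x)) (m (d x)).length)) := by
  let F : δ × List γ → List (List γ) → Unit → List (List γ) :=
    fun q L _ => L.flatMap fun l => q.2.map fun a => a :: l
  have hF : Poly (fun p : (δ × List γ) × List (List γ) × Unit => F p.1 p.2.1 p.2.2) := by
    refine NPC.Poly.flatMap (F := fun (p : (δ × List γ) × List (List γ) × Unit) l =>
      p.1.2.map fun a => a :: l) (NPC.Poly.fst (NPC.Poly.snd NPC.Poly.id)) ?_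
    exact NPC.Poly.map (F := fun (q : ((δ × List γ) × List (List γ) × Unit) × List γ) a => a :: q.2)
      (NPC.Poly.snd (NPC.Poly.fst (NPC.Poly.fst NPC.Poly.id)))
      (NPC.Poly.cons (NPC.Poly.snd NPC.Poly.id) (NPC.Poly.snd (NPC.Poly.fst NPC.Poly.id)))
  have hstep : Poly (NPC.Poly.foldStep F) := by
    have h1 : Poly (fun p : ((δ × List γ) × List Unit × List (List γ)) × Unit × List Unit =>
        ((p.1.1, p.2.2, F p.1.1 p.1.2.2 p.2.1) : (δ × List γ) × List Unit × List (List γ))) := by
      refine NPC.Poly.pair (NPC.Poly.fst (NPC.Poly.fst NPC.Poly.id)) (NPC.Poly.pair (NPC.Poly.snd (NPC.Poly.snd NPC.Poly.id)) ?_)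
      exact hF.comp (NPC.Poly.pair (NPC.Poly.fst (NPC.Poly.fst NPC.Poly.id)) (NPC.Poly.pair
        (NPC.Poly.snd (NPC.Poly.snd (NPC.Poly.fst NPC.Poly.id))) (NPC.Poly.fst (NPC.Poly.snd NPC.Poly.id))))
    refine (NPC.Poly.listCases (l := fun x : (δ × List γ) × List Unit × List (List γ) => x.2.1)
      (g := fun x => x) (h := fun x b t => (x.1, t, F x.1 x.2.2 b))
      (NPC.Poly.fst (NPC.Poly.snd NPC.Poly.id)) NPC.Poly.id h1).congr ?_
    rintro ⟨a, l, s⟩
    cases l <;> rfl
  have hx : Poly (fun y : δ => (((y, A y), m y, [[]]) : (δ × List γ) × List Unit × List (List γ))) :=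
    NPC.Poly.pair (NPC.Poly.pair NPC.Poly.id hA) (NPC.Poly.pair hm (NPC.Poly.const _))
  obtain ⟨q, hq⟩ := hx.sz_le
  obtain ⟨C, e, hC⟩ := poly_bound q
  have hx' : PC (fun x => bits (d x)) (fun b => (toT b).enc)
      (fun x => ((((d x), A (d x)), m (d x), [[]]) : (δ × List γ) × List Unit × List (List γ))) := by
    obtain ⟨c, p, h⟩ := hx
    exact ⟨c, p, fun x => h (d x)⟩
  have hm' : PC (fun x => bits (d x)) T.enc (fun x => toT (m (d x))) := by
    obtain ⟨c, p, h⟩ := hm
    exact ⟨c, p, fun x => h (d x)⟩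
  have key := PCF.iterate (κ := κ) (ea := fun x => bits (d x))
    (β := (δ × List γ) × List Unit × List (List γ)) (tb := toT)
    (n := fun x => toT (m (d x))) (x := fun x => (((d x), A (d x)), m (d x), [[]]))
    (f := NPC.Poly.foldStep F) hm' hx' hstep
    (fun k => C + ((B k + 1) ^ B k * (B k * (B k + 1) + 1 + 1) + 1)) (by
      have c1 := Computable.const (α := ℕ) 1
      exact comp_add (Computable.const _) (comp_add (comp_mul (comp_pow (comp_add hB c1) hB)
        (comp_add (comp_add (comp_mul hB (comp_add hB c1)) c1) c1)) c1)) e (by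
      intro x k _
      rw [NPC.Poly.foldStep_iterate]
      change sz (((d x), A (d x)), (m (d x)).drop k,
        ((m (d x)).take k).foldl (F (d x, A (d x))) [[]]) ≤ _
      have e0 : ((m (d x)).take k).foldl (F (d x, A (d x))) [[]] =
          allL (A (d x)) ((m (d x)).take k).length := allL_iterate _ _
      rw [e0]
      have e1 := NPC.Poly.sz_drop_le (m (d x)) k
      have e2 := hq (d x)
      have e3 := hC (sz (d x))
      have e4 := sz_allL_le (A (d x)) (B (κ x)) (hbA x) ((m (d x)).take k).length (by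
        rw [List.length_take]
        exact (min_le_right _ _).trans (hbm x))
      simp only [sz_pair] at e2 ⊢
      change _ ≤ (C + _) * ((bits (d x)).length + 1) ^ e
      rw [bits_length]
      have e5 : 1 ≤ (sz (d x) + 1) ^ e := Nat.one_le_pow _ _ (by omega)
      have e6 : (B (κ x) + 1) ^ B (κ x) * (B (κ x) * (B (κ x) + 1) + 1 + 1) + 1 ≤
        ((B (κ x) + 1) ^ B (κ x) * (B (κ x) * (B (κ x) + 1) + 1 + 1) + 1) *
          (sz (d x) + 1) ^ e := Nat.le_mul_of_pos_right _ (by omega)
      have e7 : (C + ((B (κ x) + 1) ^ B (κ x) * (B (κ x) * (B (κ x) + 1) + 1 + 1) + 1)) *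
        (sz (d x) + 1) ^ e = C * (sz (d x) + 1) ^ e +
          ((B (κ x) + 1) ^ B (κ x) * (B (κ x) * (B (κ x) + 1) + 1 + 1) + 1) *
            (sz (d x) + 1) ^ e := by ring
      rw [e7]
      have e8 : sz ([[]] : List (List γ)) = 3 := by simp
      omega)
  -- read off the result
  have hout : Poly (fun y : (δ × List γ) × List Unit × List (List γ) => (y.1.1, y.2.2)) :=
    NPC.Poly.pair (NPC.Poly.fst (NPC.Poly.fst NPC.Poly.id)) (NPC.Poly.snd (NPC.Poly.snd NPC.Poly.id))
  obtain ⟨c1, g1, e1, hg1, h1⟩ := key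
  obtain ⟨c2, p2, h2⟩ := hout
  obtain ⟨C2, e2, hC2⟩ := poly_bound p2
  have hlen : ∀ x, (bits ((NPC.Poly.foldStep F)^[(toT (m (d x))).size]
      (((d x), A (d x)), m (d x), [[]]))).length ≤
      (bits (d x)).length + g1 (κ x) * ((bits (d x)).length + 1) ^ e1 := by
    intro x
    obtain ⟨t, ht, hr⟩ := h1 x
    beta_reduce at ht
    have := hr.length_le 0
    simp only [inp, Function.update_self] at this
    have h' : (bits ((NPC.Poly.foldStep F)^[(toT (m (d x))).size]
      (((d x), A (d x)), m (d x), [[]]))).length ≤ (bits (d x)).length + t := this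
    omega
  refine ⟨Cmd.seq c1 c2, fun k => g1 k + C2 * (1 + g1 k + 1) ^ e2, e1 + (e1 + 1) * e2, ?_, ?_⟩
  · have c1' := Computable.const (α := ℕ) 1
    exact comp_add hg1 (comp_mul (Computable.const _) (comp_pow (comp_add (comp_add c1' hg1) c1')
      (Computable.const _)))
  · intro x
    have r1 := h1 x
    have r2 := h2 ((NPC.Poly.foldStep F)^[(toT (m (d x))).size] (((d x), A (d x)), m (d x), [[]]))
    have hres : (((NPC.Poly.foldStep F)^[(toT (m (d x))).size]
        (((d x), A (d x)), m (d x), [[]])).1.1, ((NPC.Poly.foldStep F)^[(toT (m (d x))).size]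
        (((d x), A (d x)), m (d x), [[]])).2.2) = (d x, allL (A (d x)) (m (d x)).length) := by
      rw [NPC.Poly.foldStep_iterate]
      have h5 : (m (d x)).length < (toT (m (d x))).size := length_lt_sz (m (d x))
      rw [List.take_of_length_le (by omega)]
      have e0 : (m (d x)).foldl (F (d x, A (d x))) [[]] =
          allL (A (d x)) (m (d x)).length := allL_iterate _ _
      rw [e0]
    refine (r1.seq r2).conv rfl (congrArg (fun y => inp (bits y)) hres) ?_
    set L := (bits (d x)).length + 1 with hL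
    have hL1 : 1 ≤ L := by omega
    have b1 := hlen x
    rw [← hL] at b1
    have b2 := hC2 (bits ((NPC.Poly.foldStep F)^[(toT (m (d x))).size]
      (((d x), A (d x)), m (d x), [[]]))).length
    have c1 : (bits ((NPC.Poly.foldStep F)^[(toT (m (d x))).size]
      (((d x), A (d x)), m (d x), [[]]))).length + 1 ≤ (1 + g1 (κ x) + 1) * L ^ (e1 + 1) := by
      have i1 : L ≤ L ^ (e1 + 1) := Nat.le_self_pow (by omega) L
      have i2 : L ^ e1 ≤ L ^ (e1 + 1) := Nat.pow_le_pow_right hL1 (by omega)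
      have i3 : g1 (κ x) * L ^ e1 ≤ g1 (κ x) * L ^ (e1 + 1) := Nat.mul_le_mul_left _ i2
      have i4 : 1 ≤ L ^ (e1 + 1) := Nat.one_le_pow _ _ hL1
      have i5 : (1 + g1 (κ x) + 1) * L ^ (e1 + 1) =
        L ^ (e1 + 1) + g1 (κ x) * L ^ (e1 + 1) + L ^ (e1 + 1) := by ring
      omega
    have c2 : C2 * ((bits ((NPC.Poly.foldStep F)^[(toT (m (d x))).size]
      (((d x), A (d x)), m (d x), [[]]))).length + 1) ^ e2 ≤
        C2 * (1 + g1 (κ x) + 1) ^ e2 * L ^ ((e1 + 1) * e2) := by
      calc C2 * ((bits ((NPC.Poly.foldStep F)^[(toT (m (d x))).size]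
            (((d x), A (d x)), m (d x), [[]]))).length + 1) ^ e2 ≤
          C2 * ((1 + g1 (κ x) + 1) * L ^ (e1 + 1)) ^ e2 :=
            Nat.mul_le_mul_left _ (Nat.pow_le_pow_left c1 e2)
        _ = _ := by rw [mul_pow, ← pow_mul]; ring
    have f1 : g1 (κ x) * L ^ e1 ≤ g1 (κ x) * L ^ (e1 + (e1 + 1) * e2) :=
      Nat.mul_le_mul_left _ (Nat.pow_le_pow_right hL1 (by omega))
    have f2 : C2 * (1 + g1 (κ x) + 1) ^ e2 * L ^ ((e1 + 1) * e2) ≤
        C2 * (1 + g1 (κ x) + 1) ^ e2 * L ^ (e1 + (e1 + 1) * e2) :=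
      Nat.mul_le_mul_left _ (Nat.pow_le_pow_right hL1 (by omega))
    have f3 : (g1 (κ x) + C2 * (1 + g1 (κ x) + 1) ^ e2) * L ^ (e1 + (e1 + 1) * e2) =
      g1 (κ x) * L ^ (e1 + (e1 + 1) * e2) + C2 * (1 + g1 (κ x) + 1) ^ e2 *
        L ^ (e1 + (e1 + 1) * e2) := by ring
    change _ ≤ (g1 (κ x) + C2 * (1 + g1 (κ x) + 1) ^ e2) * L ^ (e1 + (e1 + 1) * e2)
    rw [f3]
    exact Nat.add_le_add f1 ((b2.trans c2).trans f2)

end Pool.Agent.J4H62.PF
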