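import Pool.Agent.J4H62.PF.F1

/-!
The parser for the input strings, the chain of data with the tables, and the assembly of the
fpt-algorithm.
-/

namespace Pool.Agent.J4H62.PF

open Pool.Agent.NPC
open Pool.Agent.H603R2 (FptComputable inStr adjBits GraphInst HFreeContraction FPT Contractible
  graphProblem)
open Turing

/-! ### The parser -/

/-- state of the parser: phase, the two unary numbers, the rest (reversed) -/
abbrev PSt : Type := ℕ × List Unit × List Unit × List Bool

/-- one step of the parser -/
def parseStep (s : PSt) (b : Bool) : PSt :=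
  if s.1 = 0 then (if b = true then (0, () :: s.2.1, s.2.2.1, s.2.2.2)
    else (1, s.2.1, s.2.2.1, s.2.2.2))
  else if s.1 = 1 then (if b = true then (1, s.2.1, () :: s.2.2.1, s.2.2.2)
    else (2, s.2.1, s.2.2.1, s.2.2.2))
  else (2, s.2.1, s.2.2.1, b :: s.2.2.2)

/-- the parser -/
def parse2 (x : List Bool) : List Unit × List Unit × List Bool :=
  ((x.foldl parseStep (0, [], [], [])).2.1, (x.foldl parseStep (0, [], [], [])).2.2.1,
    (x.foldl parseStep (0, [], [], [])).2.2.2.reverse)

theorem parse_phase0 : ∀ (k : ℕ) (K N : List Unit) (M : List Bool),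
    (List.replicate k true).foldl parseStep (0, K, N, M) = (0, List.replicate k () ++ K, N, M)
  | 0, K, N, M => by simp
  | k + 1, K, N, M => by
    rw [List.replicate_succ, List.foldl_cons]
    have : parseStep (0, K, N, M) true = (0, () :: K, N, M) := by simp [parseStep]
    rw [this, parse_phase0 k, List.replicate_succ']
    simp

theorem parse_phase1 : ∀ (k : ℕ) (K N : List Unit) (M : List Bool),
    (List.replicate k true).foldl parseStep (1, K, N, M) = (1, K, List.replicate k () ++ N, M)
  | 0, K, N, M => by simp
  | k + 1, K, N, M => by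
    rw [List.replicate_succ, List.foldl_cons]
    have : parseStep (1, K, N, M) true = (1, K, () :: N, M) := by simp [parseStep]
    rw [this, parse_phase1 k, List.replicate_succ']
    simp

theorem parse_phase2 : ∀ (x : List Bool) (K N : List Unit) (M : List Bool),
    x.foldl parseStep (2, K, N, M) = (2, K, N, x.reverse ++ M)
  | [], K, N, M => by simp
  | b :: x, K, N, M => by
    rw [List.foldl_cons]
    have : parseStep (2, K, N, M) b = (2, K, N, b :: M) := by simp [parseStep]
    rw [this, parse_phase2 x]
    simp

theorem parse2_inStr (k n : ℕ) (M : List Bool) :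
    parse2 (inStr k n M) = (List.replicate k (), List.replicate n (), M) := by
  have h : (inStr k n M).foldl parseStep (0, [], [], []) =
      (2, List.replicate k (), List.replicate n (), M.reverse) := by
    rw [inStr, List.foldl_append, parse_phase0, List.foldl_cons]
    have h1 : parseStep (0, List.replicate k () ++ [], [], []) false =
      (1, List.replicate k (), [], []) := by simp [parseStep]
    rw [h1, List.foldl_append, parse_phase1, List.foldl_cons]
    have h2 : parseStep (1, List.replicate k (), List.replicate n () ++ [], []) false =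
      (2, List.replicate k (), List.replicate n (), []) := by simp [parseStep]
    rw [h2, parse_phase2]
    simp
  simp [parse2, h]

theorem sz_parseStep (s : PSt) (b : Bool) : sz (parseStep s b).2 ≤ sz s.2 + 4 := by
  obtain ⟨p, K, N, M⟩ := s
  have hb := sz_bool_le b
  unfold parseStep
  split_ifs <;> simp <;> omega

theorem parseStep_phase (s : PSt) (b : Bool) : (parseStep s b).1 ≤ 2 := by
  unfold parseStep
  split_ifs <;> simp

theorem sz_parse_fold : ∀ (x : List Bool) (s : PSt),
    sz (x.foldl parseStep s).2 ≤ sz s.2 + 4 * x.length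
  | [], s => by simp
  | b :: x, s => by
    rw [List.foldl_cons]
    have h1 := sz_parse_fold x (parseStep s b)
    have h2 := sz_parseStep s b
    rw [List.length_cons]
    omega

theorem parse_fold_phase : ∀ (x : List Bool) (s : PSt), s.1 ≤ 2 →
    (x.foldl parseStep s).1 ≤ 2
  | [], s, h => h
  | b :: x, s, _ => by
    rw [List.foldl_cons]
    exact parse_fold_phase x _ (parseStep_phase s b)

theorem poly_parseStep : NPC.Poly (fun p : PSt × Bool => parseStep p.1 p.2) := by
  have e1 : NPC.Poly (fun p : PSt × Bool => p.1.1) := NPC.Poly.fst (NPC.Poly.fst NPC.Poly.id)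
  have e2 : NPC.Poly (fun p : PSt × Bool => p.1.2.1) :=
    NPC.Poly.fst (NPC.Poly.snd (NPC.Poly.fst NPC.Poly.id))
  have e3 : NPC.Poly (fun p : PSt × Bool => p.1.2.2.1) :=
    NPC.Poly.fst (NPC.Poly.snd (NPC.Poly.snd (NPC.Poly.fst NPC.Poly.id)))
  have e4 : NPC.Poly (fun p : PSt × Bool => p.1.2.2.2) :=
    NPC.Poly.snd (NPC.Poly.snd (NPC.Poly.snd (NPC.Poly.fst NPC.Poly.id)))
  have e5 : NPC.Poly (fun p : PSt × Bool => p.2) := NPC.Poly.snd NPC.Poly.id
  have c0 : ∀ m : ℕ, NPC.Poly (fun _ : PSt × Bool => m) := fun m => NPC.Poly.const m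
  have u : NPC.Poly (fun _ : PSt × Bool => ()) := NPC.Poly.const ()
  exact NPC.Poly.ite (NPC.Poly.decide_eq e1 (c0 0))
    (NPC.Poly.ite (NPC.Poly.decide_eq e5 (NPC.Poly.const true))
      (NPC.Poly.pair (c0 0) (NPC.Poly.pair (NPC.Poly.cons u e2) (NPC.Poly.pair e3 e4)))
      (NPC.Poly.pair (c0 1) (NPC.Poly.pair e2 (NPC.Poly.pair e3 e4))))
    (NPC.Poly.ite (NPC.Poly.decide_eq e1 (c0 1))
      (NPC.Poly.ite (NPC.Poly.decide_eq e5 (NPC.Poly.const true))
        (NPC.Poly.pair (c0 1) (NPC.Poly.pair e2 (NPC.Poly.pair (NPC.Poly.cons u e3) e4)))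
        (NPC.Poly.pair (c0 2) (NPC.Poly.pair e2 (NPC.Poly.pair e3 e4))))
      (NPC.Poly.pair (c0 2) (NPC.Poly.pair e2 (NPC.Poly.pair e3 (NPC.Poly.cons e5 e4)))))

theorem sz_le_two {m : ℕ} (h : m ≤ 2) : sz m ≤ 9 := by
  have h1 := sz_nat_le m
  have h2 : m.size ≤ 2 := by
    rw [Nat.size_le]
    omega
  omega

theorem poly_parse2 : NPC.Poly parse2 := by
  have key : NPC.Poly (fun x : List Bool => x.foldl parseStep ((0, [], [], []) : PSt)) := by
    refine NPC.Poly.foldl (l := fun x : List Bool => x)
      (s := fun _ => ((0, [], [], []) : PSt)) (F := fun _ s b => parseStep s b) NPC.Poly.id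
      (NPC.Poly.const _) (poly_parseStep.comp (NPC.Poly.snd NPC.Poly.id))
      (Polynomial.C 4 * Polynomial.X + Polynomial.C 20) ?_
    intro x k _
    have h1 := sz_parse_fold (x.take k) ((0, [], [], []) : PSt)
    have h2 := parse_fold_phase (x.take k) ((0, [], [], []) : PSt) (by simp)
    have h3 := sz_le_two h2
    have h4 : (x.take k).length ≤ x.length := by
      rw [List.length_take]
      exact min_le_right _ _
    have h5 := length_lt_sz x
    have h6 : sz ((x.take k).foldl parseStep ((0, [], [], []) : PSt)) =
      sz ((x.take k).foldl parseStep ((0, [], [], []) : PSt)).1 +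
        sz ((x.take k).foldl parseStep ((0, [], [], []) : PSt)).2 + 1 := by
      rw [← sz_pair]
    simp only [Polynomial.eval_add, Polynomial.eval_mul, Polynomial.eval_C, Polynomial.eval_X]
    rw [h6]
    have h7 : sz ((0, [], [], []) : PSt).2 = 5 := by simp
    omega
  exact NPC.Poly.pair (NPC.Poly.fst (NPC.Poly.snd key)) (NPC.Poly.pair
    (NPC.Poly.fst (NPC.Poly.snd (NPC.Poly.snd key)))
    (NPC.Poly.reverse (NPC.Poly.snd (NPC.Poly.snd (NPC.Poly.snd key)))))

/-! ### The chain of data -/

/-- the parsed input, the packing (if it is small) and whether it is small -/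
abbrev D1 : Type := List Unit × List Unit × List Bool × List ℕ × Bool

/-- the packing is small -/
def small (k n : ℕ) (M : List Bool) : Bool := decide ((pack (adjM n M) n).length ≤ 8 * k)

/-- the packing, if it is small -/
def Sof (k n : ℕ) (M : List Bool) : List ℕ := if small k n M = true then pack (adjM n M) n else []

theorem Sof_length (k n : ℕ) (M : List Bool) : (Sof k n M).length ≤ 8 * k := by
  unfold Sof
  split_ifs with h
  · exact of_decide_eq_true h
  · simp

/-- the first data -/
def mk1 (y : List Unit × List Unit × List Bool) : D1 :=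
  (y.1, y.2.1, y.2.2, Sof y.1.length y.2.1.length y.2.2, small y.1.length y.2.1.length y.2.2)

theorem poly_mk1 (hP3 : S_P3) : NPC.Poly mk1 := by
  have e1 : NPC.Poly (fun y : List Unit × List Unit × List Bool => y.1) := NPC.Poly.fst NPC.Poly.id
  have e2 : NPC.Poly (fun y : List Unit × List Unit × List Bool => y.2.1) :=
    NPC.Poly.fst (NPC.Poly.snd NPC.Poly.id)
  have e3 : NPC.Poly (fun y : List Unit × List Unit × List Bool => y.2.2) :=
    NPC.Poly.snd (NPC.Poly.snd NPC.Poly.id)
  have hp : NPC.Poly (fun y : List Unit × List Unit × List Bool =>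
      pack (adjM y.2.1.length y.2.2) y.2.1.length) := NPC.Poly.comp (g := fun x :
        List Unit × List Bool => pack (adjM x.1.length x.2) x.1.length) hP3 (NPC.Poly.pair e2 e3)
  have hs : NPC.Poly (fun y : List Unit × List Unit × List Bool =>
      small y.1.length y.2.1.length y.2.2) :=
    NPC.Poly.decide_le (NPC.Poly.length hp) (NPC.Poly.mul (NPC.Poly.const 8) (NPC.Poly.length e1))
  have hS : NPC.Poly (fun y : List Unit × List Unit × List Bool =>
      Sof y.1.length y.2.1.length y.2.2) :=
    NPC.Poly.ite (p := fun y : List Unit × List Unit × List Bool =>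
      small y.1.length y.2.1.length y.2.2 = true) (NPC.Poly.decide_bool hs) hp (NPC.Poly.const [])
  exact NPC.Poly.pair e1 (NPC.Poly.pair e2 (NPC.Poly.pair e3 (NPC.Poly.pair hS hs)))

/-- the first data of a graph -/
noncomputable def d1 (x : GraphInst) : D1 :=
  mk1 (List.replicate x.k (), List.replicate x.n (), adjBits x.G)

/-- the code of a graph instance -/
noncomputable def encG (x : GraphInst) : List Bool := inStr x.k x.n (adjBits x.G)

theorem pc_comp_data {I δ β : Type} [TEnc δ] [TEnc β] (d : I → δ) {g : δ → β}
    (hg : NPC.Poly g) : PC (fun x => bits (d x)) bits (fun x => g (d x)) := by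
  obtain ⟨c, p, h⟩ := hg
  exact ⟨c, p, fun x => h (d x)⟩

theorem fpt_d1 (hP3 : S_P3) : FptComputable encG GraphInst.k (fun x => bits (d1 x)) := by
  refine PCF.toFpt (eb := bits) (f := d1) (PCF.of_pc ?_)
  have h1 : PC (fun x : GraphInst => encG x) (bits : List Bool → List Bool) (fun x => encG x) := by
    obtain ⟨c, p, h⟩ := PC.rawIn
    exact ⟨c, p, fun x => h (encG x)⟩
  have h2 : NPC.Poly (fun x : List Bool => mk1 (parse2 x)) :=
    NPC.Poly.comp (poly_mk1 hP3) poly_parse2
  refine (PC.comp (g := fun x => mk1 (parse2 x)) (f := fun x : GraphInst => encG x) h2 h1).congr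
    fun x => ?_
  change mk1 (parse2 (inStr x.k x.n (adjBits x.G))) = d1 x
  rw [parse2_inStr]
  rfl

/-- the data with the masks -/
noncomputable def d2 (x : GraphInst) : D1 × List (List Bool) := (d1 x, allL [true, false] (2 * x.k))

/-- the size of the packing used -/
noncomputable def sOf (x : GraphInst) : ℕ := (Sof x.k x.n (adjBits x.G)).length

theorem sOf_le (x : GraphInst) : sOf x ≤ 8 * x.k := Sof_length _ _ _

/-- the data with the atomic types -/
noncomputable def d3 (x : GraphInst) : (D1 × List (List Bool)) × List (List Bool) :=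
  (d2 x, Un (sOf x) x.k)

/-- the data with the selectors of sets of atomic types -/
noncomputable def d4 (x : GraphInst) :
    ((D1 × List (List Bool)) × List (List Bool)) × List (List Bool) :=
  (d3 x, allL [true, false] (Un (sOf x) x.k).length)

/-- the data with the lists of index pairs -/
noncomputable def d5 (x : GraphInst) :
    (((D1 × List (List Bool)) × List (List Bool)) × List (List Bool)) × List (List (ℕ × ℕ)) :=
  (d4 x, allL (ipairs (sOf x + 2 * x.k)) x.k)

end Pool.Agent.J4H62.PF
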