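import Pool.Agent.J4H62.PF.F2

/-!
The tables are computed in fpt-time, and so is the final test.
-/

namespace Pool.Agent.J4H62.PF

open Pool.Agent.NPC
open Pool.Agent.H603R2 (FptComputable inStr adjBits GraphInst HFreeContraction FPT Contractible
  graphProblem)
open Turing

section acc

variable {α : Type} [TEnc α]

theorem poly_Qs {N : α → List Unit} (hN : NPC.Poly N) : NPC.Poly (fun a => Qs (N a).length) := by
  have hr : NPC.Poly (fun a => List.range (N a).length) := NPC.Poly.range_length hN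
  refine NPC.Poly.flatMap (F := fun (a : α) (b : Bool) => (List.range (N a).length).flatMap
    fun i => (List.range (N a).length).map fun j => ((b, i, j) : Qu)) (NPC.Poly.const [true, false]) ?_
  refine NPC.Poly.flatMap (F := fun (p : α × Bool) (i : ℕ) =>
    (List.range (N p.1).length).map fun j => ((p.2, i, j) : Qu))
    (hr.comp (NPC.Poly.fst NPC.Poly.id)) ?_
  refine NPC.Poly.map (F := fun (p : (α × Bool) × ℕ) (j : ℕ) => ((p.1.2, p.2, j) : Qu))
    (hr.comp (NPC.Poly.fst (NPC.Poly.fst NPC.Poly.id))) ?_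
  exact NPC.Poly.pair (NPC.Poly.snd (NPC.Poly.fst (NPC.Poly.fst NPC.Poly.id)))
    (NPC.Poly.pair (NPC.Poly.snd (NPC.Poly.fst NPC.Poly.id)) (NPC.Poly.snd NPC.Poly.id))

theorem poly_ipairs {N : α → List Unit} (hN : NPC.Poly N) :
    NPC.Poly (fun a => ipairs (N a).length) := by
  have hr : NPC.Poly (fun a => List.range (N a).length) := NPC.Poly.range_length hN
  refine NPC.Poly.flatMap (F := fun (a : α) (i : ℕ) =>
    (List.range (N a).length).map fun j => (i, j)) hr ?_
  refine NPC.Poly.map (F := fun (p : α × ℕ) (j : ℕ) => (p.2, j))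
    (hr.comp (NPC.Poly.fst NPC.Poly.id)) ?_
  exact NPC.Poly.pair (NPC.Poly.snd (NPC.Poly.fst NPC.Poly.id)) (NPC.Poly.snd NPC.Poly.id)

end acc

/-- `N` in unary, from the first data -/
def nU (y : D1) : List Unit :=
  (y.2.2.2.1.map fun _ => ()) ++ ((y.1 ++ y.1) ++ List.replicate 4 ())

theorem poly_nU : NPC.Poly nU :=
  NPC.Poly.append (NPC.Poly.map (F := fun _ _ => ()) (NPC.Poly.fst (NPC.Poly.snd (NPC.Poly.snd
    (NPC.Poly.snd NPC.Poly.id)))) (NPC.Poly.const ()))
    (NPC.Poly.append (NPC.Poly.append (NPC.Poly.fst NPC.Poly.id) (NPC.Poly.fst NPC.Poly.id))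
      (NPC.Poly.const _))

/-- `s + 2 k` in unary -/
def mU (y : D1) : List Unit := (y.2.2.2.1.map fun _ => ()) ++ (y.1 ++ y.1)

theorem poly_mU : NPC.Poly mU :=
  NPC.Poly.append (NPC.Poly.map (F := fun _ _ => ()) (NPC.Poly.fst (NPC.Poly.snd (NPC.Poly.snd
    (NPC.Poly.snd NPC.Poly.id)))) (NPC.Poly.const ()))
    (NPC.Poly.append (NPC.Poly.fst NPC.Poly.id) (NPC.Poly.fst NPC.Poly.id))

theorem d1_k (x : GraphInst) : (d1 x).1 = List.replicate x.k () := rfl
theorem d1_n (x : GraphInst) : (d1 x).2.1 = List.replicate x.n () := rfl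
theorem d1_M (x : GraphInst) : (d1 x).2.2.1 = adjBits x.G := rfl
theorem d1_S (x : GraphInst) : (d1 x).2.2.2.1 = Sof x.k x.n (adjBits x.G) := by
  simp [d1, mk1]
theorem d1_f (x : GraphInst) : (d1 x).2.2.2.2 = small x.k x.n (adjBits x.G) := by
  simp [d1, mk1]

theorem nU_length (x : GraphInst) : (nU (d1 x)).length = Nn (sOf x) x.k := by
  simp [nU, d1_S, d1_k, Nn, sOf]
  omega

theorem mU_length (x : GraphInst) : (mU (d1 x)).length = sOf x + 2 * x.k := by
  simp [mU, d1_S, d1_k, sOf]
  omega

theorem Qs_length (N : ℕ) : (Qs N).length = 2 * N ^ 2 := by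
  have h : ∀ b : Bool, ((List.range N).flatMap fun i => (List.range N).map fun j =>
      ((b, i, j) : Qu)).length = N ^ 2 := by
    intro b
    rw [List.length_flatMap]
    simp [List.map_const', sq]
  simp only [Qs, List.flatMap_cons, List.flatMap_nil, List.append_nil, List.length_append, h]
  ring

theorem Qs_length_le (x : GraphInst) : (Qs (Nn (sOf x) x.k)).length ≤ 2 * (10 * x.k + 4) ^ 2 := by
  rw [Qs_length]
  refine Nat.mul_le_mul_left _ (Nat.pow_le_pow_left ?_ 2)
  have := sOf_le x
  unfold Nn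
  omega

theorem fpt_d2 : FptComputable (fun x => bits (d1 x)) GraphInst.k (fun x => bits (d2 x)) := by
  have h := PCF.toFpt (fpt_allL GraphInst.k d1 (fun _ => [true, false]) (fun y => y.1 ++ y.1)
    (NPC.Poly.const _) (NPC.Poly.append (NPC.Poly.fst NPC.Poly.id) (NPC.Poly.fst NPC.Poly.id))
    (fun k => 2 * k + 10) (comp_add (comp_mul (Computable.const _) Computable.id)
      (Computable.const _)) (fun x => by simp) (fun x => by
        rw [List.length_append, d1_k, List.length_replicate]
        omega))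
  have e : (fun x => bits (d1 x, allL [true, false] ((d1 x).1 ++ (d1 x).1).length)) =
      fun x => bits (d2 x) := by
    funext x
    rw [d2, List.length_append, d1_k, List.length_replicate, two_mul]
  rw [← e]
  exact h

theorem fpt_d3 : FptComputable (fun x => bits (d2 x)) GraphInst.k (fun x => bits (d3 x)) := by
  have hm : NPC.Poly (fun y : D1 × List (List Bool) => (Qs (nU y.1).length).map fun _ => ()) :=
    NPC.Poly.map (F := fun _ _ => ()) (poly_Qs (N := fun y : D1 × List (List Bool) => nU y.1)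
      (poly_nU.comp (NPC.Poly.fst NPC.Poly.id))) (NPC.Poly.const ())
  have hlen : ∀ x : GraphInst, ((Qs (nU (d2 x).1).length).map fun _ => ()).length =
      (Qs (Nn (sOf x) x.k)).length := by
    intro x
    rw [List.length_map]
    change (Qs (nU (d1 x)).length).length = _
    rw [nU_length]
  have h := PCF.toFpt (fpt_allL GraphInst.k d2 (fun _ => [true, false])
    (fun y => (Qs (nU y.1).length).map fun _ => ()) (NPC.Poly.const _) hm
    (fun k => 2 * (10 * k + 4) ^ 2 + 10) (comp_add (comp_mul (Computable.const _) (comp_pow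
      (comp_add (comp_mul (Computable.const _) Computable.id) (Computable.const _))
      (Computable.const _))) (Computable.const _)) (fun x => by simp) (fun x => by
        rw [hlen]
        have := Qs_length_le x
        omega))
  have e : (fun x => bits (d2 x, allL [true, false]
      (((Qs (nU (d2 x).1).length).map fun _ => ()).length))) = fun x => bits (d3 x) := by
    funext x
    rw [d3, hlen]
    rfl
  rw [← e]
  exact h

theorem Un_length_le (x : GraphInst) : (Un (sOf x) x.k).length ≤ 2 ^ (2 * (10 * x.k + 4) ^ 2) := by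
  rw [Un, length_allL]
  exact Nat.pow_le_pow_right (by norm_num) (Qs_length_le x)

theorem fpt_d4 : FptComputable (fun x => bits (d3 x)) GraphInst.k (fun x => bits (d4 x)) := by
  have hm : NPC.Poly (fun y : (D1 × List (List Bool)) × List (List Bool) =>
      y.2.map fun _ => ()) :=
    NPC.Poly.map (F := fun _ _ => ()) (NPC.Poly.snd NPC.Poly.id) (NPC.Poly.const ())
  have hlen : ∀ x : GraphInst, ((d3 x).2.map fun _ => ()).length = (Un (sOf x) x.k).length := by
    intro x
    rw [List.length_map]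
    rfl
  have h := PCF.toFpt (fpt_allL GraphInst.k d3 (fun _ => [true, false])
    (fun y => y.2.map fun _ => ()) (NPC.Poly.const _) hm
    (fun k => 2 ^ (2 * (10 * k + 4) ^ 2) + 10) (comp_add (comp_pow (Computable.const _)
      (comp_mul (Computable.const _) (comp_pow
      (comp_add (comp_mul (Computable.const _) Computable.id) (Computable.const _))
      (Computable.const _)))) (Computable.const _)) (fun x => by simp) (fun x => by
        rw [hlen]
        have := Un_length_le x
        omega))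
  have e : (fun x => bits (d3 x, allL [true, false]
      (((d3 x).2.map fun _ => ()).length))) = fun x => bits (d4 x) := by
    funext x
    rw [d4, hlen]
  rw [← e]
  exact h

theorem sz_ipairs_le (m b : ℕ) (h : m ≤ b) : sz (ipairs m) ≤ b * b * (2 * (4 * b + 1) + 1 + 1) + 1 := by
  have h1 : ∀ e ∈ ipairs m, sz e ≤ 2 * (4 * b + 1) + 1 := by
    intro e he
    rw [ipairs, List.mem_flatMap] at he
    obtain ⟨i, hi, he⟩ := he
    rw [List.mem_map] at he
    obtain ⟨j, hj, rfl⟩ := he
    rw [List.mem_range] at hi hj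
    have a1 := sz_nat_le i
    have a2 := sz_nat_le j
    have a3 : i.size ≤ i := Nat.size_le.2 Nat.lt_two_pow_self
    have a4 : j.size ≤ j := Nat.size_le.2 Nat.lt_two_pow_self
    rw [sz_pair]
    omega
  refine (sz_le_length_mul _ _ h1).trans (Nat.add_le_add_right (Nat.mul_le_mul_right _ ?_) 1)
  have : (ipairs m).length = m * m := by
    rw [ipairs, List.length_flatMap]
    simp [List.map_const']
  rw [this]
  exact Nat.mul_le_mul h h

theorem fpt_d5 : FptComputable (fun x => bits (d4 x)) GraphInst.k (fun x => bits (d5 x)) := by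
  have hA : NPC.Poly (fun y : ((D1 × List (List Bool)) × List (List Bool)) × List (List Bool) =>
      ipairs (mU y.1.1.1).length) :=
    poly_ipairs (N := fun y : ((D1 × List (List Bool)) × List (List Bool)) × List (List Bool) =>
      mU y.1.1.1) (poly_mU.comp (NPC.Poly.fst (NPC.Poly.fst (NPC.Poly.fst NPC.Poly.id))))
  have hm : NPC.Poly (fun y : ((D1 × List (List Bool)) × List (List Bool)) × List (List Bool) =>
      y.1.1.1.1) :=
    NPC.Poly.fst (NPC.Poly.fst (NPC.Poly.fst (NPC.Poly.fst NPC.Poly.id)))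
  have hlen : ∀ x : GraphInst, (mU (d4 x).1.1.1).length = sOf x + 2 * x.k := mU_length
  have h := PCF.toFpt (fpt_allL GraphInst.k d4 (fun y => ipairs (mU y.1.1.1).length)
    (fun y => y.1.1.1.1) hA hm
    (fun k => 10 * k * (10 * k) * (2 * (4 * (10 * k) + 1) + 1 + 1) + 1 + k) (by
      have c : ∀ m : ℕ, Computable (fun _ : ℕ => m) := fun m => Computable.const m
      have ten : Computable (fun k : ℕ => 10 * k) := comp_mul (c 10) Computable.id
      exact comp_add (comp_add (comp_mul (comp_mul ten ten) (comp_add (comp_add (comp_mul (c 2)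
        (comp_add (comp_mul (c 4) ten) (c 1))) (c 1)) (c 1))) (c 1)) Computable.id)
    (fun x => by
      rw [hlen]
      have h1 := sOf_le x
      have := sz_ipairs_le (sOf x + 2 * x.k) (10 * x.k) (by omega)
      omega) (fun x => by
        have : (d4 x).1.1.1.1 = List.replicate x.k () := rfl
        rw [this, List.length_replicate]
        omega))
  have e : (fun x => bits (d4 x, allL (ipairs (mU (d4 x).1.1.1).length)
      ((d4 x).1.1.1.1).length)) = fun x => bits (d5 x) := by
    funext x
    have : (d4 x).1.1.1.1 = List.replicate x.k () := rfl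
    rw [d5, hlen, this, List.length_replicate]
  rw [← e]
  exact h

/-! ### The final test -/

/-- the type of the data with all tables -/
abbrev D5 : Type := (((D1 × List (List Bool)) × List (List Bool)) × List (List Bool)) ×
  List (List (ℕ × ℕ))

/-- the environment, from the data -/
def envD (y : D5) : Env :=
  (y.1.1.1.1.2.2.2.1.map fun _ => (), Qs (nU y.1.1.1.1).length, y.1.1.2,
    y.1.2.map (sel y.1.1.2), y.1.1.1.2, allL [true, false] 4)

theorem poly_sel : NPC.Poly (fun p : AS × List Bool => sel p.1 p.2) := by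
  refine NPC.Poly.map (F := fun (_ : AS × List Bool) (t : List Bool × Bool) => t.1)
    (l := fun p : AS × List Bool => (p.1.zip p.2).filter fun t => t.2) ?_
    (NPC.Poly.fst (NPC.Poly.snd NPC.Poly.id))
  exact NPC.Poly.filter (p := fun (_ : AS × List Bool) (t : List Bool × Bool) => t.2)
    (NPC.Poly.zip (NPC.Poly.fst NPC.Poly.id) (NPC.Poly.snd NPC.Poly.id))
    (NPC.Poly.snd (NPC.Poly.snd NPC.Poly.id))

theorem poly_envD : NPC.Poly envD := by
  have e1 : NPC.Poly (fun y : D5 => y.1.1.1.1) :=
    NPC.Poly.fst (NPC.Poly.fst (NPC.Poly.fst (NPC.Poly.fst NPC.Poly.id)))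
  have e2 : NPC.Poly (fun y : D5 => y.1.1.2) :=
    NPC.Poly.snd (NPC.Poly.fst (NPC.Poly.fst NPC.Poly.id))
  refine NPC.Poly.pair (NPC.Poly.map (F := fun _ _ => ()) (NPC.Poly.fst (NPC.Poly.snd
    (NPC.Poly.snd (NPC.Poly.snd e1)))) (NPC.Poly.const ())) (NPC.Poly.pair
    (poly_Qs (poly_nU.comp e1)) (NPC.Poly.pair e2 (NPC.Poly.pair ?_ (NPC.Poly.pair
      (NPC.Poly.snd (NPC.Poly.fst (NPC.Poly.fst (NPC.Poly.fst NPC.Poly.id))))
      (NPC.Poly.const _)))))
  exact NPC.Poly.map (F := fun (y : D5) (m : List Bool) => sel y.1.1.2 m)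
    (NPC.Poly.snd (NPC.Poly.fst NPC.Poly.id))
    (poly_sel.comp (NPC.Poly.pair (e2.comp (NPC.Poly.fst NPC.Poly.id))
      (NPC.Poly.snd NPC.Poly.id)))

/-- the arguments of the final test -/
def argD (y : D5) : Env × (List Unit × List Bool) × List ℕ × List ℕ × List (List (ℕ × ℕ)) :=
  (envD y, (y.1.1.1.1.2.1, y.1.1.1.1.2.2.1), y.1.1.1.1.2.2.2.1, List.range (nU y.1.1.1.1).length,
    y.2)

theorem poly_argD : NPC.Poly argD := by
  have e1 : NPC.Poly (fun y : D5 => y.1.1.1.1) :=
    NPC.Poly.fst (NPC.Poly.fst (NPC.Poly.fst (NPC.Poly.fst NPC.Poly.id)))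
  have a1 : NPC.Poly (fun y : D5 => y.1.1.1.1.2.1) := NPC.Poly.fst (NPC.Poly.snd e1)
  have a2 : NPC.Poly (fun y : D5 => y.1.1.1.1.2.2.1) :=
    NPC.Poly.fst (NPC.Poly.snd (NPC.Poly.snd e1))
  have a3 : NPC.Poly (fun y : D5 => y.1.1.1.1.2.2.2.1) :=
    NPC.Poly.fst (NPC.Poly.snd (NPC.Poly.snd (NPC.Poly.snd e1)))
  have a4 : NPC.Poly (fun y : D5 => List.range (nU y.1.1.1.1).length) :=
    NPC.Poly.range_length (poly_nU.comp e1)
  have a5 : NPC.Poly (fun y : D5 => y.2) := NPC.Poly.snd NPC.Poly.id
  exact NPC.Poly.pair poly_envD (NPC.Poly.pair (NPC.Poly.pair a1 a2) (NPC.Poly.pair a3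
    (NPC.Poly.pair a4 a5)))

/-- the final test on its arguments -/
def finG (x : Env × (List Unit × List Bool) × List ℕ × List ℕ × List (List (ℕ × ℕ))) : Bool :=
  fin x.1 (adjM x.2.1.1.length x.2.1.2) x.2.2.1 x.2.1.1.length x.2.2.2.1 x.2.2.2.2

theorem poly_finG (hP4 : S_P4) : NPC.Poly finG := hP4

/-- the final test on the data -/
def testD (y : D5) : Bool := y.1.1.1.1.2.2.2.2 && finG (argD y)

theorem poly_testD (hP4 : S_P4) : NPC.Poly testD := by
  have e1 : NPC.Poly (fun y : D5 => y.1.1.1.1) :=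
    NPC.Poly.fst (NPC.Poly.fst (NPC.Poly.fst (NPC.Poly.fst NPC.Poly.id)))
  have a1 : NPC.Poly (fun y : D5 => y.1.1.1.1.2.2.2.2) :=
    NPC.Poly.snd (NPC.Poly.snd (NPC.Poly.snd (NPC.Poly.snd e1)))
  exact NPC.Poly.and a1 (NPC.Poly.comp (poly_finG hP4) poly_argD)

theorem envD_d5 (x : GraphInst) : envD (d5 x) = env (sOf x) x.k := by
  have h1 : (d5 x).1.1.1.1 = d1 x := rfl
  have h2 : (d5 x).1.1.2 = Un (sOf x) x.k := rfl
  have h3 : (d5 x).1.2 = allL [true, false] (Un (sOf x) x.k).length := rfl
  have h4 : (d5 x).1.1.1.2 = allL [true, false] (2 * x.k) := rfl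
  have h5 : ((d1 x).2.2.2.1.map fun _ => ()) = List.replicate (sOf x) () := by
    rw [d1_S, List.map_const', sOf]
  rw [envD, h1, h2, h3, h4, nU_length, h5]
  rfl

theorem testD_d5 (x : GraphInst) : testD (d5 x) = (small x.k x.n (adjBits x.G) &&
    fin (env (sOf x) x.k) (adjM x.n (adjBits x.G)) (Sof x.k x.n (adjBits x.G)) x.n
      (List.range (Nn (sOf x) x.k)) (allL (ipairs (sOf x + 2 * x.k)) x.k)) := by
  have h1 : (d5 x).1.1.1.1 = d1 x := rfl
  have h2 : (d5 x).2 = allL (ipairs (sOf x + 2 * x.k)) x.k := rfl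
  rw [testD, finG, argD, envD_d5, h1, h2, nU_length, d1_f, d1_S, d1_M, d1_n]
  simp only [List.length_replicate]

theorem fpt_test (hP4 : S_P4) : FptComputable (fun x => bits (d5 x)) GraphInst.k
    (fun x => [testD (d5 x)]) := by
  refine PCF.toFpt (eb := fun x : List Bool => x) (f := fun x : GraphInst => [testD (d5 x)])
    (PCF.of_pc ?_)
  exact PC.comp (g := fun b => [b]) (f := fun x : GraphInst => testD (d5 x)) PC.rawBool
    (pc_comp_data d5 (poly_testD hP4))

theorem fpt_all (hP3 : S_P3) (hP4 : S_P4) : FptComputable encG GraphInst.k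
    (fun x => [testD (d5 x)]) := by
  have cid : Computable (fun k : ℕ => k) := Computable.id
  have h5 := FptComputable.comp (κ := GraphInst.k) (κ' := GraphInst.k) (fun x : GraphInst => x)
    fpt_d5 (fpt_test hP4) (fun k => k) cid (fun x => le_rfl)
  have h4 := FptComputable.comp (κ := GraphInst.k) (κ' := GraphInst.k) (fun x : GraphInst => x)
    fpt_d4 h5 (fun k => k) cid (fun x => le_rfl)
  have h3 := FptComputable.comp (κ := GraphInst.k) (κ' := GraphInst.k) (fun x : GraphInst => x)
    fpt_d3 h4 (fun k => k) cid (fun x => le_rfl)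
  have h2 := FptComputable.comp (κ := GraphInst.k) (κ' := GraphInst.k) (fun x : GraphInst => x)
    fpt_d2 h3 (fun k => k) cid (fun x => le_rfl)
  exact FptComputable.comp (κ := GraphInst.k) (κ' := GraphInst.k) (fun x : GraphInst => x)
    (fpt_d1 hP3) h2 (fun k => k) cid (fun x => le_rfl)

end Pool.Agent.J4H62.PF
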