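import Pool.Agent.J4H62.PF.F3

/-!
The assembly: correctness of the algorithm and fixed-parameter tractability.
-/

namespace Pool.Agent.J4H62.PF

open Pool.Agent.NPC
open Pool.Agent.H603R2 (FptComputable inStr adjBits GraphInst HFreeContraction FPT Contractible
  graphProblem)

theorem isP4_eq (adj : ℕ → ℕ → Bool) (a b c d : ℕ) (h : isP4 adj a b c d = true) :
    adj a b = true ∧ adj b c = true ∧ adj c d = true := by
  unfold isP4 at h
  simp only [Bool.and_eq_true] at h
  exact ⟨h.1.1, h.1.2.1, h.1.2.2⟩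

/-- Correctness of the algorithm. -/
theorem test_iff (hR : S_R) (hG1 : S_G1) (hG2 : S_G2) (hG3 : S_G3) (hD2 : S_D2)
    (x : GraphInst) :
    Contractible (SimpleGraph.pathGraph 4) x.G x.k ↔ testD (d5 x) = true := by
  rw [testD_d5, Bool.and_eq_true]
  by_cases hs : small x.k x.n (adjBits x.G) = true
  · have hSof : Sof x.k x.n (adjBits x.G) = pack (adjM x.n (adjBits x.G)) x.n := by
      rw [Sof, if_pos hs]
    have hlt : ∀ v ∈ Sof x.k x.n (adjBits x.G), v < x.n := by
      rw [hSof]
      exact (hG2 _ _).1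
    have hsym : ∀ u v, adjM x.n (adjBits x.G) u v = adjM x.n (adjBits x.G) v u := by
      intro u v
      rw [Bool.eq_iff_iff, hG1, hG1]
      constructor
      · rintro ⟨hu, hv, h⟩
        exact ⟨hv, hu, h.symm⟩
      · rintro ⟨hu, hv, h⟩
        exact ⟨hv, hu, h.symm⟩
    have hirr : ∀ v, adjM x.n (adjBits x.G) v v = false := by
      intro v
      rw [Bool.eq_false_iff, Ne, hG1]
      rintro ⟨_, _, h⟩
      exact h.ne rfl
    have hR' := hR x (Sof x.k x.n (adjBits x.G)) hlt
    have hD' := hD2 (adjM x.n (adjBits x.G)) hsym hirr x.k x.n (Sof x.k x.n (adjBits x.G))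
      (fun h => lt_irrefl _ (hlt _ h)) (by
        intro a b c d _ _ _ _ ha hb hc hd
        rw [Bool.eq_false_iff]
        intro h
        obtain ⟨h1, h2, h3⟩ := isP4_eq _ _ _ _ _ h
        rw [hG1] at h1 h2 h3
        obtain ⟨ha', hb', _⟩ := h1
        obtain ⟨hc', hd', _⟩ := h3
        rw [hSof] at ha hb hc hd
        have := (hG2 (adjM x.n (adjBits x.G)) x.n).2 a b c d ha' hb' hc' hd' ha hb hc hd
        rw [h] at this
        exact Bool.noConfusion this)
      (List.range (Nn (sOf x) x.k)) (allL (ipairs (sOf x + 2 * x.k)) x.k)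
    rw [hR']
    have e : sOf x = (Sof x.k x.n (adjBits x.G)).length := rfl
    rw [← e] at hD' ⊢
    rw [hD']
    exact ⟨fun h => ⟨hs, h⟩, fun h => h.2⟩
  · constructor
    · intro h
      refine absurd ?_ hs
      exact decide_eq_true (hG3 x h)
    · intro h
      exact absurd h.1 hs

/-- `P₄`-Free Contraction is fixed-parameter tractable, given the parts. -/
theorem fpt_of_parts (hR : S_R) (hG1 : S_G1) (hG2 : S_G2) (hG3 : S_G3) (hD2 : S_D2)
    (hP3 : S_P3) (hP4 : S_P4) : FPT (HFreeContraction (SimpleGraph.pathGraph 4)) := by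
  have h := fpt_all hP3 hP4
  unfold FPT
  have e : (fun x : (HFreeContraction (SimpleGraph.pathGraph 4)).Inst =>
      [@decide ((HFreeContraction (SimpleGraph.pathGraph 4)).Yes x) (Classical.propDecidable _)]) =
      fun x : GraphInst => [testD (d5 x)] := by
    funext x
    congr 1
    rw [Bool.eq_iff_iff]
    exact ⟨fun h' => (test_iff hR hG1 hG2 hG3 hD2 x).1
        (@of_decide_eq_true _ (Classical.propDecidable _) h'),
      fun h' => @decide_eq_true _ (Classical.propDecidable _)
        ((test_iff hR hG1 hG2 hG3 hD2 x).2 h')⟩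
  rw [e]
  exact h

end Pool.Agent.J4H62.PF
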