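import Pool.Agent.J4H62.PF.Defs

/-!
Statements of the independent parts of the proof that `P₄`-Free Contraction is fixed-parameter
tractable.
-/

namespace Pool.Agent.J4H62.PF

open Pool.Agent.NPC Pool.Agent.H603R2

/-- JOB T: twins in `P₄`-free graphs -/
def S_T : Prop := ∀ (R : ℕ → ℕ → Prop) (_ : ∀ a b, R a b → R b a)
    (_ : ∀ a, ¬ R a a) (C : Finset ℕ) (_ : 2 ≤ C.card)
    (_ : ∀ a ∈ C, ∀ b ∈ C, ∀ c ∈ C, ∀ d ∈ C, ¬ pat R a b c d),
    ∃ u ∈ C, ∃ v ∈ C, u ≠ v ∧ ∀ w ∈ C, w ≠ u → w ≠ v → (R w u ↔ R w v)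

/-- JOB C: contraction in terms of lists of pairs -/
def S_C : Prop := ∀ (n : ℕ) (G : SimpleGraph (Fin n)) (k : ℕ),
    Contractible (SimpleGraph.pathGraph 4) G k ↔ ∃ F : List (Fin n × Fin n), F.length ≤ k ∧
      (∀ e ∈ F, G.Adj e.1 e.2) ∧ ∀ a b c d, ¬ pat (qadj G.Adj (coll F)) a b c d

/-- adjacency of the classes of `u` and `v` witnessed by entries of the tuple `z` -/
def qadjZ (adj : ℕ → ℕ → Bool) (N : ℕ) (z : ℕ → ℕ) (π : ℕ → ℕ) (u v : ℕ) : Prop :=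
  π u ≠ π v ∧ ∃ a' < N, ∃ b' < N, π (z a') = π u ∧ π (z b') = π v ∧ adj (z a') (z b') = true

/-- JOB I: evaluation of `psi` on the atomic type of a tuple -/
def S_I : Prop := ∀ (adj : ℕ → ℕ → Bool) (N : ℕ) (F : List (ℕ × ℕ)) (z : ℕ → ℕ)
    (_ : ∀ e ∈ F, e.1 < N ∧ e.2 < N),
    psi (Qs N) (List.range N) F (atp adj (Qs N) z) = true ↔
      (∀ e ∈ F, adj (z e.1) (z e.2) = true ∨ z e.1 = z e.2) ∧
      ∀ a < N, ∀ b < N, ∀ c < N, ∀ d < N,
        ¬ pat (qadjZ adj N z (coll (F.map fun e => (z e.1, z e.2)))) (z a) (z b) (z c) (z d)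

/-- JOB R: the semantic form of the problem (uses C, I) -/
def S_R : Prop := ∀ (x : GraphInst) (S : List ℕ) (_ : ∀ v ∈ S, v < x.n),
    Contractible (SimpleGraph.pathGraph 4) x.G x.k ↔
      Sem (adjM x.n (adjBits x.G)) (Qs (Nn S.length x.k)) (List.range (Nn S.length x.k)) S
        (fun v => v ≤ x.n ∧ v ∉ S) (S.length + 2 * x.k)
        (allL (ipairs (S.length + 2 * x.k)) x.k)

/-- JOB G1 -/
def S_G1 : Prop := ∀ (n : ℕ) (G : SimpleGraph (Fin n)) (u v : ℕ),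
    adjM n (adjBits G) u v = true ↔ ∃ (hu : u < n) (hv : v < n), G.Adj ⟨u, hu⟩ ⟨v, hv⟩

/-- JOB G2: the greedy packing -/
def S_G2 : Prop := ∀ (adj : ℕ → ℕ → Bool) (n : ℕ), (∀ v ∈ pack adj n, v < n) ∧
  ∀ a b c d, a < n → b < n → c < n → d < n → a ∉ pack adj n → b ∉ pack adj n →
    c ∉ pack adj n → d ∉ pack adj n → isP4 adj a b c d = false

/-- JOB G3: the greedy packing of a yes-instance is small (may use C, G1, G2) -/
def S_G3 : Prop := ∀ (x : GraphInst) (_ : Contractible (SimpleGraph.pathGraph 4) x.G x.k),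
    (pack (adjM x.n (adjBits x.G)) x.n).length ≤ 8 * x.k

/-- JOB B1: the universe lists contain what they should -/
def S_B1 : Prop := (∀ (α : Type) (A : List α) (m : ℕ) (l : List α), l ∈ allL A m ↔
    l.length = m ∧ ∀ a ∈ l, a ∈ A) ∧
  ∀ (s k : ℕ) (p : List Bool → Bool), (Un s k).filter p ∈ PUn s k

/-- JOB D0: the type of a single vertex -/
def S_D0 : Prop := ∀ (adj : ℕ → ℕ → Bool) (k : ℕ) (S : List ℕ) (v : ℕ),
    IsTy adj (env S.length k) S (fun u => u = v) (S.length + 2 * k) (base (env S.length k) adj S v)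

/-- JOB D1: the type of a union of two parts (may use B1) -/
def S_D1 : Prop := ∀ (adj : ℕ → ℕ → Bool) (_ : ∀ u v, adj u v = adj v u) (k : ℕ)
    (S : List ℕ) (b : Bool) (P₁ P₂ : ℕ → Prop) (_ : ∃ v, P₁ v) (_ : ∃ v, P₂ v)
    (_ : ∀ u v, P₁ u → P₂ v → adj u v = b) (_ : ∀ u v, P₁ u → P₂ v → u ≠ v)
    (t₁ t₂ : List AS) (_ : IsTy adj (env S.length k) S P₁ (S.length + 2 * k) t₁)
    (_ : IsTy adj (env S.length k) S P₂ (S.length + 2 * k) t₂),
    IsTy adj (env S.length k) S (fun v => P₁ v ∨ P₂ v) (S.length + 2 * k)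
      (mergeT (env S.length k) b t₁ t₂)

/-- JOB D2: correctness of the dynamic program (may use T, B1, D0, D1) -/
def S_D2 : Prop := ∀ (adj : ℕ → ℕ → Bool) (_ : ∀ u v, adj u v = adj v u)
    (_ : ∀ v, adj v v = false) (k n : ℕ) (S : List ℕ) (_ : n ∉ S)
    (_ : ∀ a b c d, a ≤ n → b ≤ n → c ≤ n → d ≤ n → a ∉ S → b ∉ S → c ∉ S → d ∉ S →
      isP4 adj a b c d = false) (R : List ℕ) (FS : List (List (ℕ × ℕ))),
    fin (env S.length k) adj S n R FS = true ↔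
      Sem adj (Qs (Nn S.length k)) R S (fun v => v ≤ n ∧ v ∉ S) (S.length + 2 * k) FS

/-- JOB P1a -/
def S_P1a : Prop := Poly (fun x : Env × Bool × List AS × List AS =>
    mergeT x.1 x.2.1 x.2.2.1 x.2.2.2)

/-- JOB P1b -/
def S_P1b : Prop := Poly (fun x : (ℕ × List Bool) × ℕ × ℕ => adjM x.1.1 x.1.2 x.2.1 x.2.2)

/-- JOB P1c (may use P1b) -/
def S_P1c : Prop := Poly (fun x : Env × (ℕ × List Bool) × List ℕ × ℕ =>
    base x.1 (adjM x.2.1.1 x.2.1.2) x.2.2.1 x.2.2.2)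

/-- JOB P2 -/
def S_P2 : Prop := Poly (fun x : List Qu × List ℕ × List (ℕ × ℕ) × List Bool =>
    psi x.1 x.2.1 x.2.2.1 x.2.2.2)

/-- JOB P3 (may use P1b) -/
def S_P3 : Prop := Poly (fun x : List Unit × List Bool =>
    pack (adjM x.1.length x.2) x.1.length)

/-- JOB P4 (may use P1a, P1b, P1c, P2) -/
def S_P4 : Prop := Poly (fun x : Env × (List Unit × List Bool) × List ℕ × List ℕ ×
    List (List (ℕ × ℕ)) =>
    fin x.1 (adjM x.2.1.1.length x.2.1.2) x.2.2.1 x.2.1.1.length x.2.2.2.1 x.2.2.2.2)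

end Pool.Agent.J4H62.PF
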